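import Mathlib
import Pool.Agent.X195.Braid5

/-!
# The isometric dimension of a braid graph is its diameter

Positive answer to Q1 of MP_260d59_co.  The braid class of a reduced expression of type `Λ` is
identified with the set of solutions of a system of constraints along a path, one for each pair of
overlapping shadows, the distance being the Hamming distance; a pair of complementary solutions
gives two words at distance equal to the isometric dimension.
-/

set_option autoImplicit false

namespace Pool.Agent.Results.MP_260d59_co.IsometricDimension

open Pool.Agent.X195.Braid

universe u v

/-- For every Coxeter system of type `Λ` and every reduced expression `α` the least dimension of a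
hypercube into which the braid graph of `α` embeds isometrically is the diameter of the braid
graph. -/
theorem result {S : Type u} {W : Type v} [Group W] (M : CoxeterMatrix S) (cs : CoxeterSystem M W)
    (hM : TypeLambda M) (α : List S) (hα : cs.IsReduced α) :
    (braidGraph M α).Connected ∧ (braidGraph M α).ediam = ((braidGraph M α).diam : ℕ∞) ∧
      IsLeast {n : ℕ | EmbedsInCube (braidGraph M α) n} (braidGraph M α).diam := by
  have h := ediam_eq cs hM hα
  have : Nonempty (braidClass M α) := ⟨⟨α, Relation.ReflTransGen.refl⟩⟩
  have hne : (braidGraph M α).ediam ≠ ⊤ := by
    rw [h]
    exact ENat.natCast_ne_top _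
  refine ⟨SimpleGraph.connected_of_ediam_ne_top hne, ?_, ?_⟩
  · rw [h, diam_eq cs hM hα]
  · rw [diam_eq cs hM hα]
    exact isLeast cs hM hα

end Pool.Agent.Results.MP_260d59_co.IsometricDimension
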